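import Pool.Agent.Helper64.SB.Location
import Pool.Agent.Helper41.SB.L4

/-!
Module L5: the location theorem for the kernel of the lower bounds. The kernel facts
`abs_kb_le`, `integral_lc_le` (module L3b), `kb_continuous`, `integral_kb`, `integral_kb_diag`
(module L3a) are hypotheses, in the exact form of the stubs.
-/

open Finset MeasureTheory
open scoped ENNReal Real

namespace Pool.Agent.Helper69.SB

open Pool.Agent.Helper60.SB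
open Pool.Agent.Helper41.SB (card_level card_below card_below_zero card_Shp_lower)
open Pool.Agent.Helper64.SB (location)

private lemma L5_series (a : ℕ) : ∃ S > 0, ∀ n : ℕ,
    ∑ i ∈ range n, ((i : ℝ) + 1) ^ a * (3 / 4 : ℝ) ^ i ≤ S := by
  have hs : Summable (fun n : ℕ => (n : ℝ) ^ a * (3 / 4 : ℝ) ^ n) :=
    summable_pow_mul_geometric_of_norm_lt_one a (by norm_num [abs_of_pos])
  refine ⟨4 / 3 * (∑' n : ℕ, (n : ℝ) ^ a * (3 / 4 : ℝ) ^ n) + 1, ?_, fun n => ?_⟩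
  · have : 0 ≤ ∑' n : ℕ, (n : ℝ) ^ a * (3 / 4 : ℝ) ^ n := tsum_nonneg fun n => by positivity
    positivity
  · have h1 : ∑ i ∈ range n, ((i : ℝ) + 1) ^ a * (3 / 4 : ℝ) ^ i =
        4 / 3 * ∑ i ∈ range n, (((i + 1 : ℕ) : ℝ) ^ a * (3 / 4 : ℝ) ^ (i + 1)) := by
      rw [Finset.mul_sum]
      refine Finset.sum_congr rfl fun i _ => ?_
      push_cast
      ring
    have h2 : ∑ i ∈ range n, (((i + 1 : ℕ) : ℝ) ^ a * (3 / 4 : ℝ) ^ (i + 1)) ≤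
        ∑ i ∈ range (n + 1), ((i : ℝ) ^ a * (3 / 4 : ℝ) ^ i) := by
      rw [Finset.sum_range_succ' (fun i : ℕ => (i : ℝ) ^ a * (3 / 4 : ℝ) ^ i) n]
      have : 0 ≤ ((0 : ℕ) : ℝ) ^ a * (3 / 4 : ℝ) ^ 0 := by positivity
      linarith
    have h3 : ∑ i ∈ range (n + 1), ((i : ℝ) ^ a * (3 / 4 : ℝ) ^ i) ≤
        ∑' n : ℕ, (n : ℝ) ^ a * (3 / 4 : ℝ) ^ n :=
      hs.sum_le_tsum _ (fun i _ => by positivity)
    rw [h1]
    linarith

private lemma L5_exp_third : Real.exp (1 / 3) ≤ 3 / 2 := by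
  have h1 : (2 / 3 : ℝ) ≤ Real.exp (-(1 / 3)) := by
    have := Real.one_sub_le_exp_neg (1 / 3)
    linarith
  rw [Real.exp_neg] at h1
  have h2 : 0 < Real.exp (1 / 3) := Real.exp_pos _
  rw [le_inv_comm₀ (by norm_num) h2] at h1
  norm_num at h1 ⊢
  exact h1

/-- bound for one term -/
private lemma L5_term (e m₁ Lw J S i : ℕ) (c ν κ0 lam C1 : ℝ) (he : 1 ≤ e) (hm : 1 ≤ m₁)
    (hL : 1 ≤ Lw) (hc : 0 < c) (hν : 0 < ν)
    (hκ : κ0 = ν ^ (e + 1) * S) (hS : c * (Lw : ℝ) * (m₁ : ℝ) ^ e ≤ S)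
    (hJ1 : J ≤ Lw * (i + 1) ^ e) (hJ2 : J ≤ (i + 1) ^ (e + 1)) (hJ3 : J ≤ S)
    (hC1 : C1 = 1 / (ν ^ (e + 1) * c) + 1 / ν ^ (e + 1)) (hlam : 0 ≤ lam)
    (hlam2 : lam * C1 ≤ m₁ / 3) :
    ((J : ℝ) / κ0) ^ 2 * Real.exp (lam * ((J : ℝ) / κ0)) ≤
      (((i : ℝ) + 1) ^ (e + 1) / (ν ^ (e + 1) * c * Lw * (m₁ : ℝ) ^ e)) ^ 2 *
        (3 / 2 : ℝ) ^ (i + 1) := by
  have hm' : (1 : ℝ) ≤ m₁ := by exact_mod_cast hm
  have hm0 : (0 : ℝ) < m₁ := by linarith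
  have hL' : (1 : ℝ) ≤ Lw := by exact_mod_cast hL
  have hL0 : (0 : ℝ) < Lw := by linarith
  have hν' : 0 < ν ^ (e + 1) := by positivity
  have hbase : 0 < c * (Lw : ℝ) * (m₁ : ℝ) ^ e := by positivity
  have hS0 : (0 : ℝ) < S := lt_of_lt_of_le hbase hS
  have hκpos : 0 < κ0 := by rw [hκ]; positivity
  have hκlow : ν ^ (e + 1) * c * Lw * (m₁ : ℝ) ^ e ≤ κ0 := by
    rw [hκ]
    calc ν ^ (e + 1) * c * Lw * (m₁ : ℝ) ^ e = ν ^ (e + 1) * (c * (Lw : ℝ) * (m₁ : ℝ) ^ e) := by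
          ring
      _ ≤ ν ^ (e + 1) * S := by gcongr
  have hden : 0 < ν ^ (e + 1) * c * Lw * (m₁ : ℝ) ^ e := by positivity
  have hJ1' : (J : ℝ) ≤ Lw * ((i : ℝ) + 1) ^ e := by exact_mod_cast hJ1
  have hJ2' : (J : ℝ) ≤ ((i : ℝ) + 1) ^ (e + 1) := by exact_mod_cast hJ2
  have hJ3' : (J : ℝ) ≤ S := by exact_mod_cast hJ3
  have hC1pos : 0 < C1 := by rw [hC1]; positivity
  have hA : 1 ≤ C1 * (ν ^ (e + 1) * c) := by
    rw [hC1, add_mul, one_div, inv_mul_cancel₀ (by positivity)]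
    have : 0 ≤ 1 / ν ^ (e + 1) * (ν ^ (e + 1) * c) := by positivity
    linarith
  have hB : 1 ≤ C1 * ν ^ (e + 1) := by
    rw [hC1, add_mul, one_div_mul_cancel (hν'.ne')]
    have : 0 ≤ 1 / (ν ^ (e + 1) * c) * ν ^ (e + 1) := by positivity
    linarith
  have hlam3 : lam * ((J : ℝ) / κ0) ≤ ((i : ℝ) + 1) / 3 := by
    rcases le_or_gt (i + 1) m₁ with hi | hi
    · have hi' : (i : ℝ) + 1 ≤ m₁ := by exact_mod_cast hi
      have h1 : (J : ℝ) / κ0 ≤ (Lw * ((i : ℝ) + 1) ^ e) / (ν ^ (e + 1) * c * Lw * (m₁ : ℝ) ^ e) := by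
        gcongr
      have h2 : (Lw * ((i : ℝ) + 1) ^ e) / (ν ^ (e + 1) * c * Lw * (m₁ : ℝ) ^ e) =
          ((i : ℝ) + 1) ^ e / (ν ^ (e + 1) * c * (m₁ : ℝ) ^ e) := by
        field_simp
      obtain ⟨e', rfl⟩ : ∃ e', e = e' + 1 := ⟨e - 1, by omega⟩
      have h3 : ((i : ℝ) + 1) ^ (e' + 1) ≤ ((i : ℝ) + 1) * (m₁ : ℝ) ^ e' := by
        rw [pow_succ, mul_comm]
        gcongr
      have h4 : (J : ℝ) / κ0 ≤ ((i : ℝ) + 1) / (ν ^ (e' + 1 + 1) * c * m₁) := by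
        rw [h2] at h1
        refine h1.trans ?_
        rw [div_le_div_iff₀ (by positivity) (by positivity)]
        calc ((i : ℝ) + 1) ^ (e' + 1) * (ν ^ (e' + 1 + 1) * c * m₁) ≤
              (((i : ℝ) + 1) * (m₁ : ℝ) ^ e') * (ν ^ (e' + 1 + 1) * c * m₁) := by gcongr
          _ = ((i : ℝ) + 1) * (ν ^ (e' + 1 + 1) * c * (m₁ : ℝ) ^ (e' + 1)) := by ring
      calc lam * ((J : ℝ) / κ0) ≤ lam * (((i : ℝ) + 1) / (ν ^ (e' + 1 + 1) * c * m₁)) := by gcongr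
        _ ≤ (lam * (C1 * (ν ^ (e' + 1 + 1) * c))) *
              (((i : ℝ) + 1) / (ν ^ (e' + 1 + 1) * c * m₁)) := by
            gcongr
            exact le_mul_of_one_le_right hlam hA
        _ = (lam * C1) * (((i : ℝ) + 1) / m₁) := by field_simp
        _ ≤ (m₁ / 3) * (((i : ℝ) + 1) / m₁) := by gcongr
        _ = ((i : ℝ) + 1) / 3 := by field_simp
    · have hi' : (m₁ : ℝ) ≤ (i : ℝ) + 1 := by exact_mod_cast hi.le
      have h1 : (J : ℝ) / κ0 ≤ 1 / ν ^ (e + 1) := by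
        rw [div_le_div_iff₀ hκpos hν', hκ]
        nlinarith
      calc lam * ((J : ℝ) / κ0) ≤ lam * (1 / ν ^ (e + 1)) := by gcongr
        _ ≤ (lam * (C1 * ν ^ (e + 1))) * (1 / ν ^ (e + 1)) := by
            gcongr
            exact le_mul_of_one_le_right hlam hB
        _ = lam * C1 := by field_simp
        _ ≤ m₁ / 3 := hlam2
        _ ≤ ((i : ℝ) + 1) / 3 := by gcongr
  have hr : (J : ℝ) / κ0 ≤ ((i : ℝ) + 1) ^ (e + 1) / (ν ^ (e + 1) * c * Lw * (m₁ : ℝ) ^ e) := by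
    gcongr
  have hr0 : 0 ≤ (J : ℝ) / κ0 := by positivity
  have hexp : Real.exp (lam * ((J : ℝ) / κ0)) ≤ (3 / 2 : ℝ) ^ (i + 1) := by
    calc Real.exp (lam * ((J : ℝ) / κ0)) ≤ Real.exp (((i : ℝ) + 1) / 3) :=
          Real.exp_le_exp.2 hlam3
      _ = Real.exp (1 / 3) ^ (i + 1) := by
          rw [← Real.exp_nat_mul]
          congr 1
          push_cast
          ring
      _ ≤ (3 / 2 : ℝ) ^ (i + 1) := by
          gcongr
          exact L5_exp_third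
  gcongr

/-- the number of shapes below `l` -/
private noncomputable def L5J (e m₀ m₁ : ℕ) (l : Fin (e + 1) → ℕ) : ℕ :=
  ((Shp e m₀ m₁).filter fun s => ∀ j, s j ≤ l j).card

private lemma L5_sum (e : ℕ) (he : 1 ≤ e) (ν : ℝ) (hν : 0 < ν) :
    ∃ C1 > 0, ∃ C2 > 0, ∀ m₀ m₁ : ℕ, 1 ≤ m₁ → m₀ ≤ m₁ → m₁ ≤ 2 * m₀ → ∀ lam : ℝ, 0 ≤ lam →
      lam * C1 ≤ m₁ / 3 →
      0 < ν ^ (e + 1) * ((Shp e m₀ m₁).card : ℝ) ∧
      ∑ l ∈ Fintype.piFinset (fun _ : Fin (e + 1) => range (m₁ + 1)),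
        ((L5J e m₀ m₁ l : ℝ) / (ν ^ (e + 1) * ((Shp e m₀ m₁).card : ℝ))) ^ 2 *
          Real.exp (lam * ((L5J e m₀ m₁ l : ℝ) / (ν ^ (e + 1) * ((Shp e m₀ m₁).card : ℝ)))) /
            2 ^ (∑ j, l j) ≤
      C2 / (2 ^ m₀ * ((m₁ - m₀ + 1 : ℕ) : ℝ) ^ 2 * (m₁ : ℝ) ^ e) := by
  obtain ⟨c, hc, hcard⟩ := card_Shp_lower e
  obtain ⟨S, hS, hser⟩ := L5_series (3 * e + 2)
  refine ⟨1 / (ν ^ (e + 1) * c) + 1 / ν ^ (e + 1), by positivity,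
    2 ^ e * (1 / (ν ^ (e + 1) * c)) ^ 2 * (3 / 2) * S, by positivity, ?_⟩
  intro m₀ m₁ hm₁ h01 h12 lam hlam hlam2
  have hm1' : (1 : ℝ) ≤ m₁ := by exact_mod_cast hm₁
  set Lw : ℕ := m₁ - m₀ + 1 with hLw
  have hL1 : 1 ≤ Lw := by omega
  have hL1' : (1 : ℝ) ≤ Lw := by exact_mod_cast hL1
  have hcard' : c * (Lw : ℝ) * (m₁ : ℝ) ^ e ≤ (Shp e m₀ m₁).card := hcard m₀ m₁ h01 h12
  set κ0 : ℝ := ν ^ (e + 1) * ((Shp e m₀ m₁).card : ℝ) with hκ0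
  have hcpos : (0 : ℝ) < (Shp e m₀ m₁).card := lt_of_lt_of_le (by positivity) hcard'
  refine ⟨by positivity, ?_⟩
  -- the bounding function
  set b : ℕ → ℝ := fun q => if q < m₀ then 0 else
    ((((q - m₀ : ℕ) : ℝ) + 1) ^ (e + 1) / (ν ^ (e + 1) * c * Lw * (m₁ : ℝ) ^ e)) ^ 2 *
        (3 / 2 : ℝ) ^ ((q - m₀) + 1) / 2 ^ q with hb
  have hb0 : ∀ q, 0 ≤ b q := by
    intro q
    simp only [hb]
    split_ifs
    · exact le_rfl
    · positivity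
  have step1 : ∀ l ∈ Fintype.piFinset (fun _ : Fin (e + 1) => range (m₁ + 1)),
      ((L5J e m₀ m₁ l : ℝ) / κ0) ^ 2 * Real.exp (lam * ((L5J e m₀ m₁ l : ℝ) / κ0)) /
        2 ^ (∑ j, l j) ≤ b (∑ j, l j) := by
    intro l _
    rcases lt_or_ge (∑ j, l j) m₀ with h | h
    · have hz : L5J e m₀ m₁ l = 0 := by
        unfold L5J
        rw [card_below_zero e m₀ m₁ l h, Finset.card_empty]
      rw [hz]
      simp only [Nat.cast_zero, zero_div, ne_eq, OfNat.ofNat_ne_zero, not_false_eq_true, zero_pow,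
        zero_mul]
      exact hb0 _
    · obtain ⟨i, hi⟩ := Nat.exists_eq_add_of_le h
      have hbel := card_below e m₀ m₁ l i hi
      have hJ1 : L5J e m₀ m₁ l ≤ Lw * (i + 1) ^ e := hbel.trans (min_le_left _ _)
      have hJ2 : L5J e m₀ m₁ l ≤ (i + 1) ^ (e + 1) := hbel.trans (min_le_right _ _)
      have hJ3 : L5J e m₀ m₁ l ≤ (Shp e m₀ m₁).card := Finset.card_filter_le _ _
      have hterm := L5_term e m₁ Lw (L5J e m₀ m₁ l) (Shp e m₀ m₁).card i c ν κ0 lam _ he hm₁ hL1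
        hc hν hκ0 hcard' hJ1 hJ2 hJ3 rfl hlam hlam2
      simp only [hb]
      rw [if_neg (by omega)]
      have hsub : ∑ j, l j - m₀ = i := by omega
      rw [hsub]
      gcongr
  have step2 : ∑ l ∈ Fintype.piFinset (fun _ : Fin (e + 1) => range (m₁ + 1)), b (∑ j, l j) =
      ∑ q ∈ range ((e + 1) * m₁ + 1),
        ∑ l ∈ (Fintype.piFinset (fun _ : Fin (e + 1) => range (m₁ + 1))).filter
          (fun l => ∑ j, l j = q), b (∑ j, l j) := by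
    refine (Finset.sum_fiberwise_of_maps_to ?_ _).symm
    intro l hl
    rw [Fintype.mem_piFinset] at hl
    rw [mem_range]
    have : ∑ j, l j ≤ ∑ _j : Fin (e + 1), m₁ := Finset.sum_le_sum fun j _ => by
      have := mem_range.1 (hl j)
      omega
    simp only [sum_const, card_univ, Fintype.card_fin, smul_eq_mul] at this
    omega
  have step3 : ∀ q ∈ range ((e + 1) * m₁ + 1),
      ∑ l ∈ (Fintype.piFinset (fun _ : Fin (e + 1) => range (m₁ + 1))).filter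
          (fun l => ∑ j, l j = q), b (∑ j, l j) ≤ ((q : ℝ) + 1) ^ e * b q := by
    intro q _
    have h1 : ∑ l ∈ (Fintype.piFinset (fun _ : Fin (e + 1) => range (m₁ + 1))).filter
          (fun l => ∑ j, l j = q), b (∑ j, l j) =
        (((Fintype.piFinset (fun _ : Fin (e + 1) => range (m₁ + 1))).filter
          (fun l => ∑ j, l j = q)).card : ℝ) * b q := by
      rw [← nsmul_eq_mul]
      refine Finset.sum_eq_card_nsmul fun l hl => ?_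
      rw [(mem_filter.1 hl).2]
    rw [h1]
    refine mul_le_mul_of_nonneg_right ?_ (hb0 q)
    exact_mod_cast card_level e m₁ q
  have step4 : ∑ q ∈ range ((e + 1) * m₁ + 1), ((q : ℝ) + 1) ^ e * b q =
      ∑ i ∈ range ((e + 1) * m₁ + 1 - m₀), (((m₀ + i : ℕ) : ℝ) + 1) ^ e * b (m₀ + i) := by
    have hle : m₀ ≤ (e + 1) * m₁ + 1 := by nlinarith
    rw [Finset.range_eq_Ico, ← Finset.sum_Ico_consecutive _ (Nat.zero_le m₀) hle,
      Finset.sum_Ico_eq_sum_range _ m₀]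
    have hz : ∑ q ∈ Ico 0 m₀, ((q : ℝ) + 1) ^ e * b q = 0 := by
      refine Finset.sum_eq_zero fun q hq => ?_
      have : q < m₀ := (mem_Ico.1 hq).2
      simp only [hb]
      rw [if_pos this, mul_zero]
    rw [hz, zero_add, Finset.range_eq_Ico]
  have step5 : ∀ i ∈ range ((e + 1) * m₁ + 1 - m₀), (((m₀ + i : ℕ) : ℝ) + 1) ^ e * b (m₀ + i) ≤
      2 ^ e * (1 / (ν ^ (e + 1) * c)) ^ 2 * (3 / 2) / (2 ^ m₀ * (Lw : ℝ) ^ 2 * (m₁ : ℝ) ^ e) *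
        (((i : ℝ) + 1) ^ (3 * e + 2) * (3 / 4 : ℝ) ^ i) := by
    intro i _
    simp only [hb]
    rw [if_neg (by omega), Nat.add_sub_cancel_left]
    have h1 : (((m₀ + i : ℕ) : ℝ) + 1) ≤ 2 * m₁ * ((i : ℝ) + 1) := by
      push_cast
      have : (m₀ : ℝ) ≤ m₁ := by exact_mod_cast h01
      have hi0 : (0 : ℝ) ≤ i := Nat.cast_nonneg i
      nlinarith
    calc (((m₀ + i : ℕ) : ℝ) + 1) ^ e *
          ((((i : ℝ) + 1) ^ (e + 1) / (ν ^ (e + 1) * c * Lw * (m₁ : ℝ) ^ e)) ^ 2 *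
            (3 / 2 : ℝ) ^ (i + 1) / 2 ^ (m₀ + i)) ≤
        (2 * m₁ * ((i : ℝ) + 1)) ^ e *
          ((((i : ℝ) + 1) ^ (e + 1) / (ν ^ (e + 1) * c * Lw * (m₁ : ℝ) ^ e)) ^ 2 *
            (3 / 2 : ℝ) ^ (i + 1) / 2 ^ (m₀ + i)) := by gcongr
      _ = 2 ^ e * (1 / (ν ^ (e + 1) * c)) ^ 2 * (3 / 2) / (2 ^ m₀ * (Lw : ℝ) ^ 2 * (m₁ : ℝ) ^ e) *
        (((i : ℝ) + 1) ^ (3 * e + 2) * (3 / 4 : ℝ) ^ i) := by
          have h34 : (3 / 4 : ℝ) ^ i = (3 / 2 : ℝ) ^ i / 2 ^ i := by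
            rw [← div_pow]
            norm_num
          have e1 : ((i : ℝ) + 1) ^ (3 * e + 2) = ((i : ℝ) + 1) ^ e * (((i : ℝ) + 1) ^ (e + 1)) ^ 2 := by
            rw [← pow_mul, ← pow_add]
            congr 1
            ring
          have e3 : (2 * (m₁ : ℝ) * ((i : ℝ) + 1)) ^ e = 2 ^ e * (m₁ : ℝ) ^ e * ((i : ℝ) + 1) ^ e := by
            rw [mul_pow, mul_pow]
          have e4 : (3 / 2 : ℝ) ^ (i + 1) = (3 / 2 : ℝ) ^ i * (3 / 2) := pow_succ _ _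
          have e5 : (2 : ℝ) ^ (m₀ + i) = 2 ^ m₀ * 2 ^ i := pow_add _ _ _
          have p1 : (0 : ℝ) < (m₁ : ℝ) ^ e := by positivity
          have p2 : 0 < ν ^ (e + 1) := by positivity
          have p3 : (0 : ℝ) < (Lw : ℝ) := by linarith
          have p4 : (0 : ℝ) < (2 : ℝ) ^ m₀ := by positivity
          have p5 : (0 : ℝ) < (2 : ℝ) ^ i := by positivity
          rw [h34, e1, e3, e4, e5]
          generalize (m₁ : ℝ) ^ e = R at p1 ⊢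
          generalize ν ^ (e + 1) = V at p2 ⊢
          generalize (Lw : ℝ) = W at p3 ⊢
          generalize (2 : ℝ) ^ m₀ = Z at p4 ⊢
          generalize (2 : ℝ) ^ i = Y at p5 ⊢
          generalize (3 / 2 : ℝ) ^ i = U
          generalize ((i : ℝ) + 1) ^ (e + 1) = G
          generalize ((i : ℝ) + 1) ^ e = F
          generalize (2 : ℝ) ^ e = E
          field_simp
  calc _ ≤ ∑ l ∈ Fintype.piFinset (fun _ : Fin (e + 1) => range (m₁ + 1)), b (∑ j, l j) :=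
        Finset.sum_le_sum step1
    _ ≤ ∑ q ∈ range ((e + 1) * m₁ + 1), ((q : ℝ) + 1) ^ e * b q := by
        rw [step2]
        exact Finset.sum_le_sum step3
    _ ≤ 2 ^ e * (1 / (ν ^ (e + 1) * c)) ^ 2 * (3 / 2) / (2 ^ m₀ * (Lw : ℝ) ^ 2 * (m₁ : ℝ) ^ e) *
        ∑ i ∈ range ((e + 1) * m₁ + 1 - m₀), (((i : ℝ) + 1) ^ (3 * e + 2) * (3 / 4 : ℝ) ^ i) := by
        rw [step4, Finset.mul_sum]
        exact Finset.sum_le_sum step5
    _ ≤ 2 ^ e * (1 / (ν ^ (e + 1) * c)) ^ 2 * (3 / 2) / (2 ^ m₀ * (Lw : ℝ) ^ 2 * (m₁ : ℝ) ^ e) *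
        S := by
        gcongr
        exact hser _
    _ = _ := by ring

private lemma L5_meas_cell (a : ℕ) : Measurable (cell a) := by
  unfold cell
  exact Nat.measurable_floor.comp
    (measurable_const.mul (measurable_fract.comp (measurable_id.div_const _)))

private lemma L5_meas_lc (M : ℕ) (x : ℝ) : Measurable (fun y => lc M x y) := by
  unfold lc
  refine measurable_findGreatest fun k _ => ?_
  exact measurableSet_eq_fun measurable_const (L5_meas_cell k)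

private lemma L5_meas_g {d : ℕ} (M : ℕ) (x : Fin d → ℝ) (g : (Fin d → ℕ) → ℝ) :
    Measurable (fun y : Fin d → ℝ => g (fun j => lc M (x j) (y j))) := by
  have h1 : Measurable (fun y : Fin d → ℝ => (fun j => lc M (x j) (y j))) :=
    measurable_pi_lambda _ fun j => (L5_meas_lc M (x j)).comp (measurable_pi_apply j)
  exact (measurable_of_countable g).comp h1

private lemma L5_prob1 : IsProbabilityMeasure tor1 := by
  constructor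
  unfold tor1
  rw [Measure.smul_apply, Measure.restrict_apply MeasurableSet.univ, Set.univ_inter,
    Real.volume_Ico, sub_zero, smul_eq_mul]
  exact ENNReal.inv_mul_cancel (by simp [Real.pi_pos]) ENNReal.ofReal_ne_top

private lemma L5_prob (d : ℕ) : IsProbabilityMeasure (tor d) := by
  have := L5_prob1
  unfold tor
  infer_instance

private lemma L5_kb_symm {d : ℕ} (u : ℝ → ℝ) (Sh : Finset (Fin d → ℕ)) (x y : Fin d → ℝ) :
    kb u Sh x y = kb u Sh y x := by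
  unfold kb kb1
  simp only [mul_comm]

private lemma L5_int
    (abs_kb_le : ∀ {d : ℕ} (u : ℝ → ℝ), (∀ t, |u t| ≤ 1) →
      (∀ t, (t ≤ 1 / 10 ∨ 9 / 10 ≤ t) → u t = 0) → ∀ (Sh : Finset (Fin d → ℕ)) (M : ℕ),
      (∀ s ∈ Sh, ∀ j, s j ≤ M) → ∀ (x y : Fin d → ℝ),
      |kb u Sh x y| ≤ ((Sh.filter fun s => ∀ j, s j ≤ lc M (x j) (y j)).card : ℝ))
    (integral_lc_le : ∀ {d : ℕ} (M : ℕ) (x : Fin d → ℝ) (g : (Fin d → ℕ) → ℝ),
      (∀ l, 0 ≤ g l) → ∫ y, g (fun j => lc M (x j) (y j)) ∂(tor d) ≤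
        ∑ l ∈ Fintype.piFinset (fun _ : Fin d => range (M + 1)), g l / 2 ^ (∑ j, l j))
    (e : ℕ) (he : 1 ≤ e) (u : ℝ → ℝ)
    (hu1 : ∀ t, |u t| ≤ 1) (hsupp : ∀ t, (t ≤ 1 / 10 ∨ 9 / 10 ≤ t) → u t = 0)
    (ν : ℝ) (hν : 0 < ν) :
    ∃ C1 > 0, ∃ C2 > 0, ∀ m₀ m₁ : ℕ, 1 ≤ m₁ → m₀ ≤ m₁ → m₁ ≤ 2 * m₀ → ∀ lam : ℝ, 0 ≤ lam →
      lam * C1 ≤ m₁ / 3 →
      0 < ν ^ (e + 1) * ((Shp e m₀ m₁).card : ℝ) ∧ ∀ x : Fin (e + 1) → ℝ,
      ∫ y, (kb u (Shp e m₀ m₁) x y / (ν ^ (e + 1) * ((Shp e m₀ m₁).card : ℝ))) ^ 2 *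
        Real.exp (lam * (|kb u (Shp e m₀ m₁) x y| / (ν ^ (e + 1) * ((Shp e m₀ m₁).card : ℝ))))
          ∂(tor (e + 1)) ≤
      C2 / (2 ^ m₀ * ((m₁ - m₀ + 1 : ℕ) : ℝ) ^ 2 * (m₁ : ℝ) ^ e) := by
  obtain ⟨C1, hC1, C2, hC2, H⟩ := L5_sum e he ν hν
  refine ⟨C1, hC1, C2, hC2, ?_⟩
  intro m₀ m₁ hm₁ h01 h12 lam hlam hlam2
  obtain ⟨hκpos, hsum⟩ := H m₀ m₁ hm₁ h01 h12 lam hlam hlam2
  refine ⟨hκpos, fun x => ?_⟩
  set κ0 : ℝ := ν ^ (e + 1) * ((Shp e m₀ m₁).card : ℝ) with hκ0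
  have hP := L5_prob (e + 1)
  set g : (Fin (e + 1) → ℕ) → ℝ := fun l =>
    ((L5J e m₀ m₁ l : ℝ) / κ0) ^ 2 * Real.exp (lam * ((L5J e m₀ m₁ l : ℝ) / κ0)) with hg
  have hg0 : ∀ l, 0 ≤ g l := fun l => by simp only [hg]; positivity
  have hJle : ∀ l, (L5J e m₀ m₁ l : ℝ) ≤ (Shp e m₀ m₁).card := fun l => by
    exact_mod_cast Finset.card_filter_le _ _
  have hgb : ∀ l, g l ≤ (((Shp e m₀ m₁).card : ℝ) / κ0) ^ 2 *
      Real.exp (lam * (((Shp e m₀ m₁).card : ℝ) / κ0)) := fun l => by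
    simp only [hg]
    have := hJle l
    gcongr
  have hmax : ∀ s ∈ Shp e m₀ m₁, ∀ j, s j ≤ m₁ := by
    intro s hs j
    unfold Shp at hs
    have := Fintype.mem_piFinset.1 (mem_filter.1 hs).1 j
    have := mem_range.1 this
    omega
  have hint : Integrable (fun y : Fin (e + 1) → ℝ => g (fun j => lc m₁ (x j) (y j)))
      (tor (e + 1)) := by
    refine Integrable.of_bound (L5_meas_g m₁ x g).aestronglyMeasurable
      ((((Shp e m₀ m₁).card : ℝ) / κ0) ^ 2 *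
      Real.exp (lam * (((Shp e m₀ m₁).card : ℝ) / κ0))) (Filter.Eventually.of_forall fun y => ?_)
    rw [Real.norm_of_nonneg (hg0 _)]
    exact hgb _
  calc _ ≤ ∫ y, g (fun j => lc m₁ (x j) (y j)) ∂(tor (e + 1)) := by
        refine integral_mono_of_nonneg (Filter.Eventually.of_forall fun y => by positivity) hint
          (Filter.Eventually.of_forall fun y => ?_)
        have hk := abs_kb_le u hu1 hsupp (Shp e m₀ m₁) m₁ hmax x y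
        simp only [hg]
        have hk' : |kb u (Shp e m₀ m₁) x y| ≤ (L5J e m₀ m₁ (fun j => lc m₁ (x j) (y j)) : ℝ) := hk
        have hsq : (kb u (Shp e m₀ m₁) x y / κ0) ^ 2 = (|kb u (Shp e m₀ m₁) x y| / κ0) ^ 2 := by
          rw [div_pow, div_pow, sq_abs]
        rw [hsq]
        gcongr
    _ ≤ ∑ l ∈ Fintype.piFinset (fun _ : Fin (e + 1) => range (m₁ + 1)), g l / 2 ^ (∑ j, l j) :=
        integral_lc_le m₁ x g hg0
    _ ≤ _ := hsum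

theorem kernel_location
    (kb_continuous : ∀ {d : ℕ} (u : ℝ → ℝ), Continuous u →
      (∀ t, (t ≤ 1 / 10 ∨ 9 / 10 ≤ t) → u t = 0) → ∀ (Sh : Finset (Fin d → ℕ)),
      Continuous fun z : (Fin d → ℝ) × (Fin d → ℝ) => kb u Sh z.1 z.2)
    (integral_kb : ∀ {d : ℕ}, 1 ≤ d → ∀ (u : ℝ → ℝ), Continuous u →
      (∀ t, (t ≤ 1 / 10 ∨ 9 / 10 ≤ t) → u t = 0) → ∫ t, u t = 0 →
      ∀ (Sh : Finset (Fin d → ℕ)) (x : Fin d → ℝ), ∫ y, kb u Sh x y ∂(tor d) = 0)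
    (integral_kb_diag : ∀ {d : ℕ} (u : ℝ → ℝ), Continuous u →
      (∀ t, (t ≤ 1 / 10 ∨ 9 / 10 ≤ t) → u t = 0) → ∀ (Sh : Finset (Fin d → ℕ)),
      ∫ x, kb u Sh x x ∂(tor d) = (∫ t, u t ^ 2) ^ d * Sh.card)
    (abs_kb_le : ∀ {d : ℕ} (u : ℝ → ℝ), (∀ t, |u t| ≤ 1) →
      (∀ t, (t ≤ 1 / 10 ∨ 9 / 10 ≤ t) → u t = 0) → ∀ (Sh : Finset (Fin d → ℕ)) (M : ℕ),
      (∀ s ∈ Sh, ∀ j, s j ≤ M) → ∀ (x y : Fin d → ℝ),
      |kb u Sh x y| ≤ ((Sh.filter fun s => ∀ j, s j ≤ lc M (x j) (y j)).card : ℝ))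
    (integral_lc_le : ∀ {d : ℕ} (M : ℕ) (x : Fin d → ℝ) (g : (Fin d → ℕ) → ℝ),
      (∀ l, 0 ≤ g l) → ∫ y, g (fun j => lc M (x j) (y j)) ∂(tor d) ≤
        ∑ l ∈ Fintype.piFinset (fun _ : Fin d => range (M + 1)), g l / 2 ^ (∑ j, l j))
    (e : ℕ) (he : 1 ≤ e) (u : ℝ → ℝ) (hu : Continuous u)
    (hu1 : ∀ t, |u t| ≤ 1) (hsupp : ∀ t, (t ≤ 1 / 10 ∨ 9 / 10 ≤ t) → u t = 0)
    (hint : ∫ t, u t = 0) (ν : ℝ) (hν : 0 < ν) (hν2 : ∫ t, u t ^ 2 = ν) (B₁ : ℝ) (hB₁ : 0 < B₁) :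
    ∃ α > 0, ∃ m₂ : ℕ, ∀ m₀ m₁ N : ℕ, m₂ ≤ m₁ → m₀ ≤ m₁ → m₁ ≤ 2 * m₀ → m₂ ≤ N →
      (N : ℝ) * m₁ ≤ B₁ * 2 ^ m₀ * ((m₁ - m₀ + 1 : ℕ) : ℝ) ^ 2 * (m₁ : ℝ) ^ e →
      ∃ 𝒯 : Set (Fin N → Fin (e + 1) → ℝ), MeasurableSet 𝒯 ∧
        2 / 3 ≤ (Measure.pi fun _ : Fin N => tor (e + 1)).real 𝒯 ∧
        (∀ X ∈ 𝒯, |∑ i, ∑ j, kb u (Shp e m₀ m₁) (X i) (X j) -
          N * (ν ^ (e + 1) * (Shp e m₀ m₁).card)| ≤
            1 / 16 * N * (ν ^ (e + 1) * (Shp e m₀ m₁).card)) ∧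
        ∀ Y ∈ 𝒯, (Measure.pi fun _ : Fin N => tor (e + 1)).real
          {X | N * (ν ^ (e + 1) * (Shp e m₀ m₁).card) / 2 ≤
            ∑ i, ∑ j, kb u (Shp e m₀ m₁) (X i) (Y j)} ≤ Real.exp (-(α * m₁ * N / 8)) := by
  obtain ⟨C1, hC1, C2, hC2, H⟩ := L5_int abs_kb_le integral_lc_le e he u hu1 hsupp ν hν
  have hP := L5_prob (e + 1)
  -- the constants
  obtain ⟨α, hα, hα1, hα2⟩ : ∃ α > 0, α * C1 ≤ 1 / 3 ∧ 4 * α * C2 * B₁ ≤ 1 := by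
    refine ⟨min (1 / (3 * C1)) (1 / (4 * C2 * B₁)), by positivity, ?_, ?_⟩
    · calc min (1 / (3 * C1)) (1 / (4 * C2 * B₁)) * C1 ≤ 1 / (3 * C1) * C1 := by
            gcongr
            exact min_le_left _ _
        _ = 1 / 3 := by field_simp
    · calc 4 * min (1 / (3 * C1)) (1 / (4 * C2 * B₁)) * C2 * B₁ ≤
          4 * (1 / (4 * C2 * B₁)) * C2 * B₁ := by
            gcongr
            exact min_le_right _ _
        _ = 1 := by field_simp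
  obtain ⟨k1, hk1⟩ := exists_nat_ge (8 / α)
  obtain ⟨k2, hk2⟩ := exists_nat_ge (100 * (1 / ν ^ (e + 1)) ^ 2 / (1 / 16) ^ 2)
  obtain ⟨k3, hk3⟩ := exists_nat_ge (C2 * 25600)
  refine ⟨α, hα, 1 + k1 + k2 + 2 * k3, ?_⟩
  intro m₀ m₁ N hm1 h01 h12 hN hNm
  have hm1' : 1 ≤ m₁ := by omega
  have hm0k : k3 ≤ m₀ := by omega
  have hk1m : (k1 : ℝ) ≤ m₁ := by exact_mod_cast (show k1 ≤ m₁ by omega)
  have hk2N : (k2 : ℝ) ≤ N := by exact_mod_cast (show k2 ≤ N by omega)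
  have hm1R : (1 : ℝ) ≤ m₁ := by exact_mod_cast hm1'
  have hL1 : (1 : ℝ) ≤ ((m₁ - m₀ + 1 : ℕ) : ℝ) := by exact_mod_cast Nat.le_add_left 1 _
  have hlamC : α * m₁ * C1 ≤ m₁ / 3 := by nlinarith
  obtain ⟨hκpos, hI⟩ := H m₀ m₁ hm1' h01 h12 (α * m₁) (by positivity) hlamC
  obtain ⟨-, hI0⟩ := H m₀ m₁ hm1' h01 h12 0 le_rfl (by rw [zero_mul]; positivity)
  set κ0 : ℝ := ν ^ (e + 1) * ((Shp e m₀ m₁).card : ℝ) with hκ0
  have hmax : ∀ s ∈ Shp e m₀ m₁, ∀ j, s j ≤ m₁ := by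
    intro s hs j
    unfold Shp at hs
    have := Fintype.mem_piFinset.1 (mem_filter.1 hs).1 j
    have := mem_range.1 this
    omega
  have hbound : ∀ x y, |kb u (Shp e m₀ m₁) x y| ≤ ((Shp e m₀ m₁).card : ℝ) := fun x y =>
    (abs_kb_le u hu1 hsupp (Shp e m₀ m₁) m₁ hmax x y).trans
      (by exact_mod_cast Finset.card_filter_le _ _)
  have hcont := kb_continuous u hu hsupp (Shp e m₀ m₁)
  have hBκ : ∀ x, |kb u (Shp e m₀ m₁) x x| ≤ 1 / ν ^ (e + 1) * κ0 := fun x => by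
    have : 1 / ν ^ (e + 1) * κ0 = ((Shp e m₀ m₁).card : ℝ) := by
      rw [hκ0]
      field_simp
    rw [this]
    exact hbound x x
  have h3 : ∫ z, kb u (Shp e m₀ m₁) z.1 z.2 ^ 2 ∂((tor (e + 1)).prod (tor (e + 1))) ≤
      (1 / 16) ^ 2 * κ0 ^ 2 / 100 := by
    have hintg : Integrable (fun z : (Fin (e + 1) → ℝ) × (Fin (e + 1) → ℝ) =>
        kb u (Shp e m₀ m₁) z.1 z.2 ^ 2) ((tor (e + 1)).prod (tor (e + 1))) := by
      refine Integrable.of_bound (hcont.pow 2).aestronglyMeasurable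
        (((Shp e m₀ m₁).card : ℝ) ^ 2) (Filter.Eventually.of_forall fun z => ?_)
      rw [Real.norm_of_nonneg (sq_nonneg _), ← sq_abs]
      have := hbound z.1 z.2
      gcongr
    rw [integral_prod _ hintg]
    have hx : ∀ x : Fin (e + 1) → ℝ, ∫ y, kb u (Shp e m₀ m₁) x y ^ 2 ∂(tor (e + 1)) ≤
        (1 / 16) ^ 2 * κ0 ^ 2 / 100 := by
      intro x
      have h0 := hI0 x
      simp only [zero_mul, Real.exp_zero, mul_one] at h0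
      have e1 : ∫ y, kb u (Shp e m₀ m₁) x y ^ 2 ∂(tor (e + 1)) =
          κ0 ^ 2 * ∫ y, (kb u (Shp e m₀ m₁) x y / κ0) ^ 2 ∂(tor (e + 1)) := by
        rw [← integral_const_mul]
        congr 1
        ext y
        field_simp
      have e2 : C2 / (2 ^ m₀ * ((m₁ - m₀ + 1 : ℕ) : ℝ) ^ 2 * (m₁ : ℝ) ^ e) ≤ 1 / 25600 := by
        have h2m : (k3 : ℝ) ≤ 2 ^ m₀ := by
          have : k3 < 2 ^ k3 := Nat.lt_two_pow_self
          have h' : 2 ^ k3 ≤ 2 ^ m₀ := Nat.pow_le_pow_right (by norm_num) hm0k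
          exact_mod_cast (this.le.trans h')
        have h1e : (1 : ℝ) ≤ (m₁ : ℝ) ^ e := one_le_pow₀ hm1R
        have hL2 : (1 : ℝ) ≤ ((m₁ - m₀ + 1 : ℕ) : ℝ) ^ 2 := one_le_pow₀ hL1
        rw [div_le_div_iff₀ (by positivity) (by norm_num)]
        calc C2 * 25600 ≤ 2 ^ m₀ := hk3.trans h2m
          _ ≤ 2 ^ m₀ * ((m₁ - m₀ + 1 : ℕ) : ℝ) ^ 2 * (m₁ : ℝ) ^ e := by
              have h2p : (0 : ℝ) < 2 ^ m₀ := by positivity
              nlinarith [mul_le_mul hL2 h1e zero_le_one (by positivity)]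
          _ = 1 * (2 ^ m₀ * ((m₁ - m₀ + 1 : ℕ) : ℝ) ^ 2 * (m₁ : ℝ) ^ e) := by ring
      rw [e1]
      calc κ0 ^ 2 * ∫ y, (kb u (Shp e m₀ m₁) x y / κ0) ^ 2 ∂(tor (e + 1)) ≤
            κ0 ^ 2 * (1 / 25600) := by
              gcongr
              exact h0.trans e2
        _ = (1 / 16) ^ 2 * κ0 ^ 2 / 100 := by ring
    calc ∫ x, ∫ y, kb u (Shp e m₀ m₁) (x, y).1 (x, y).2 ^ 2 ∂(tor (e + 1)) ∂(tor (e + 1)) ≤
          ∫ _x : Fin (e + 1) → ℝ, (1 / 16) ^ 2 * κ0 ^ 2 / 100 ∂(tor (e + 1)) := by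
            refine integral_mono_of_nonneg (Filter.Eventually.of_forall fun x =>
              integral_nonneg fun y => sq_nonneg _) (integrable_const _)
              (Filter.Eventually.of_forall fun x => hx x)
      _ = (1 / 16) ^ 2 * κ0 ^ 2 / 100 := by simp
  have h4 : ∀ x, N * ∫ y, (kb u (Shp e m₀ m₁) x y / κ0) ^ 2 *
      Real.exp (α * m₁ * (|kb u (Shp e m₀ m₁) x y| / κ0)) ∂(tor (e + 1)) ≤
        1 / (4 * (α * m₁)) := by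
    intro x
    have hD : 0 < 2 ^ m₀ * ((m₁ - m₀ + 1 : ℕ) : ℝ) ^ 2 * (m₁ : ℝ) ^ e := by positivity
    calc N * ∫ y, (kb u (Shp e m₀ m₁) x y / κ0) ^ 2 *
          Real.exp (α * m₁ * (|kb u (Shp e m₀ m₁) x y| / κ0)) ∂(tor (e + 1)) ≤
        N * (C2 / (2 ^ m₀ * ((m₁ - m₀ + 1 : ℕ) : ℝ) ^ 2 * (m₁ : ℝ) ^ e)) := by
          gcongr
          exact hI x
      _ ≤ 1 / (4 * (α * m₁)) := by
          rw [mul_div_assoc', div_le_div_iff₀ hD (by positivity)]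
          calc (N : ℝ) * C2 * (4 * (α * m₁)) = 4 * α * C2 * (N * m₁) := by ring
            _ ≤ 4 * α * C2 * (B₁ * 2 ^ m₀ * ((m₁ - m₀ + 1 : ℕ) : ℝ) ^ 2 * (m₁ : ℝ) ^ e) := by
                gcongr
            _ = (4 * α * C2 * B₁) * (2 ^ m₀ * ((m₁ - m₀ + 1 : ℕ) : ℝ) ^ 2 * (m₁ : ℝ) ^ e) := by
                ring
            _ ≤ 1 * (2 ^ m₀ * ((m₁ - m₀ + 1 : ℕ) : ℝ) ^ 2 * (m₁ : ℝ) ^ e) := by gcongr
  have hloc := location (tor (e + 1)) (kb u (Shp e m₀ m₁)) hcont.measurable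
    ((Shp e m₀ m₁).card : ℝ) hbound (L5_kb_symm u (Shp e m₀ m₁))
    (integral_kb (by omega) u hu hsupp hint (Shp e m₀ m₁)) κ0 (1 / ν ^ (e + 1)) (1 / 16)
    (α * m₁) N hκpos (by norm_num) (by omega)
    (by rw [integral_kb_diag u hu hsupp (Shp e m₀ m₁), hν2]) hBκ h3 h4 (hk2.trans hk2N)
    (by
      have := hk1.trans hk1m
      rw [div_le_iff₀ hα] at this
      linarith)
  exact hloc

end Pool.Agent.Helper69.SB
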